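import Pool.Agent.helper47.SC.Spec

/-!
# Row sc:WSM (MP_0015b7): the function `W`
-/

set_option autoImplicit false

open scoped Topology ContDiff
open Set Filter Metric MeasureTheory
open Pool.Agent.helper90.KMMP (levi hess)

namespace Pool.Agent.SC

private lemma WSM_nat_le (n : ℕ) : (n : WithTop ℕ∞) ≤ ∞ := by
  exact_mod_cast (le_top : (n : ℕ∞) ≤ ⊤)

private lemma WSM_two_le : (2 : WithTop ℕ∞) ≤ ∞ := WSM_nat_le 2

/-- the terms of `WW` -/
private noncomputable def WSM_f (s : ℕ → C3) (m : ℕ → ℕ) (i : ℕ) (w : C3) : ℝ :=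
  eps m i / 2 * Real.log (nsq (w - s i))

private lemma WSM_norm_sq_le (h4 : NSQ_stmt) (w : C3) : ‖w‖ ^ 2 ≤ nsq w := by
  obtain ⟨_, _, _, _, _, _, _, h1, h2, h3, _, _⟩ := h4
  have e : ‖w‖ = max ‖w.1‖ (max ‖w.2.1‖ ‖w.2.2‖) := by
    rw [Prod.norm_def, Prod.norm_def w.2]
  rw [e]
  rcases max_choice ‖w.1‖ (max ‖w.2.1‖ ‖w.2.2‖) with h | h
  · rw [h]
    exact h1 w
  · rw [h]
    rcases max_choice ‖w.2.1‖ ‖w.2.2‖ with h' | h'
    · rw [h']
      exact h2 w
    · rw [h']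
      exact h3 w

private lemma WSM_smooth (h2 : LGS_stmt) (s : ℕ → C3) (m : ℕ → ℕ) (i : ℕ) {w : C3}
    (hw : w ≠ s i) : ContDiffAt ℝ ∞ (fun w => Real.log (nsq (w - s i))) w := by
  have h1 : ContDiffAt ℝ ∞ (fun w => Real.log (nsq w)) (w - s i) := h2.1 _ (sub_ne_zero.2 hw)
  exact ContDiffAt.comp w (g := fun w => Real.log (nsq w)) (f := fun w => w - s i) h1
    (contDiffAt_id.sub contDiffAt_const)

private lemma WSM_smooth' (h2 : LGS_stmt) (s : ℕ → C3) (m : ℕ → ℕ) (i : ℕ) {w : C3}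
    (hw : w ≠ s i) : ContDiffAt ℝ ∞ (WSM_f s m i) w :=
  contDiffAt_const.mul (WSM_smooth h2 s m i hw)

private lemma WSM_levi (h2 : LGS_stmt) (s : ℕ → C3) (m : ℕ → ℕ) (i : ℕ) (he : 0 < eps m i) {w : C3}
    (hw : w ≠ s i) (v : C3) : 0 ≤ levi (WSM_f s m i) w v := by
  have h1 : ContDiffAt ℝ ∞ (fun w => Real.log (nsq (w - s i))) w := WSM_smooth h2 s m i hw
  have h3 : levi (WSM_f s m i) w v =
      eps m i / 2 * levi (fun w => Real.log (nsq (w - s i))) w v :=
    Pool.Agent.helper90.KMMP.levi_const_mul (eps m i / 2) (h1.of_le WSM_two_le) v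
  have h4 : levi (fun w => Real.log (nsq (w - s i))) w v =
      levi (fun w => Real.log (nsq w)) (w - s i) v := by
    have h5 := Pool.Agent.helper90.KMMP.levi_comp (u := fun w => Real.log (nsq w))
      (f := fun w : C3 => w - s i) (x := w)
      ((h2.1 _ (sub_ne_zero.2 hw)).of_le WSM_two_le)
      (analyticAt_id.sub analyticAt_const) v
    have h6 : fderiv ℂ (fun w : C3 => w - s i) w v = v := by
      rw [fderiv_sub_const]
      simp
    rw [h6] at h5
    exact h5
  rw [h3, h4]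
  exact mul_nonneg (by positivity) (h2.2.1 _ (sub_ne_zero.2 hw) v)

/-- **Row WSM**. -/
theorem WSM (h1 : LTS_stmt) (h2 : LGS_stmt) (h3 : LGB_stmt) (h4 : NSQ_stmt) (h5 : EPS_stmt) :
    WSM_stmt := by
  intro s D T m hD hm
  obtain ⟨heps, hsum, -, -⟩ := h5 m hm
  have hnorm := WSM_norm_sq_le h4
  obtain ⟨-, hcont, -, -, -, -, -, -, -, -, -, hle1⟩ := h4
  set O : Set C3 := {w | nsq w < 1 / 4 ∧ w ∉ T} with hO
  have hOo : IsOpen O := (isOpen_lt hcont continuous_const).inter hD.closed.isOpen_compl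
  have hne : ∀ w ∈ O, ∀ i, w ≠ s i := fun w hw i h => hw.2 (h ▸ hD.mem i)
  have hle : ∀ w ∈ O, ∀ i, nsq (w - s i) ≤ 1 := fun w hw i =>
    hle1 w (s i) hw.1 (hD.small _ (hD.mem i))
  have hsm : ∀ i, ContDiffOn ℝ ∞ (WSM_f s m i) O := fun i w hw =>
    (WSM_smooth' h2 s m i (hne w hw i)).contDiffWithinAt
  have hloc : ∀ p ∈ O, ∃ W ∈ 𝓝 p, ∀ n : ℕ, ∃ (v : ℕ → ℝ) (i₀ : ℕ), Summable v ∧ ∀ i, i₀ ≤ i →
      ∀ q ∈ W, ‖iteratedFDeriv ℝ n (WSM_f s m i) q‖ ≤ v i := by
    intro p hp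
    obtain ⟨r, hr, hrO⟩ := Metric.isOpen_iff.1 hOo p hp
    refine ⟨ball p (r / 2), ball_mem_nhds p (by positivity), fun n => ?_⟩
    obtain ⟨C, hC⟩ := h3 ((r / 2) ^ 2) n (by positivity)
    refine ⟨fun i => eps m i * |C|, 0, hsum.mul_right _, fun i _ q hq => ?_⟩
    have hqO : q ∈ O := hrO (ball_subset_ball (by linarith) hq)
    have hdist : r / 2 ≤ ‖q - s i‖ := by
      by_contra hcon
      rw [not_le] at hcon
      have h6 : s i ∈ ball p r := by
        rw [mem_ball]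
        rw [mem_ball] at hq
        have h7 : dist (s i) q < r / 2 := by
          rw [dist_comm, dist_eq_norm]
          exact hcon
        calc dist (s i) p ≤ dist (s i) q + dist q p := dist_triangle _ _ _
          _ < r := by linarith
      exact (hrO h6).2 (hD.mem i)
    have h8 : (r / 2) ^ 2 ≤ nsq (q - s i) :=
      (pow_le_pow_left₀ (by positivity) hdist 2).trans (hnorm _)
    have h9 := hC (s i) q h8 (hle q hqO i)
    have h10 : iteratedFDeriv ℝ n (WSM_f s m i) q =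
        (eps m i / 2) • iteratedFDeriv ℝ n (fun w => Real.log (nsq (w - s i))) q := by
      have h11 := iteratedFDeriv_const_smul_apply' (𝕜 := ℝ) (i := n) (a := eps m i / 2)
        (f := fun w => Real.log (nsq (w - s i))) (x := q)
        ((WSM_smooth h2 s m i (hne q hqO i)).of_le (WSM_nat_le n))
      exact h11
    rw [h10, norm_smul, Real.norm_of_nonneg (by have := heps i; positivity)]
    have h12 : ‖iteratedFDeriv ℝ n (fun w => Real.log (nsq (w - s i))) q‖ ≤ |C| :=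
      h9.trans (le_abs_self C)
    have h13 := heps i
    calc eps m i / 2 * ‖iteratedFDeriv ℝ n (fun w => Real.log (nsq (w - s i))) q‖
        ≤ eps m i / 2 * |C| := mul_le_mul_of_nonneg_left h12 (by positivity)
      _ ≤ eps m i * |C| := mul_le_mul_of_nonneg_right (by linarith) (abs_nonneg C)
  obtain ⟨hL1, hL2, -, hL4⟩ := h1 ℝ C3 ℝ (WSM_f s m) O hOo hsm hloc
  have hWW : (fun x => ∑' i, WSM_f s m i x) = WW s m := rfl
  rw [hWW] at hL1 hL4
  refine ⟨hL1, ?_, ?_⟩
  · intro w hw1 hw2 v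
    have hw : w ∈ O := ⟨hw1, hw2⟩
    obtain ⟨hs, hf⟩ := hL4 w hw
    have hh : ∀ v : C3, HasSum (fun i => hess (WSM_f s m i) w v) (hess (WW s m) w v) := by
      intro v
      unfold hess
      rw [hf]
      have e1 := (ContinuousLinearMap.apply ℝ (C3 →L[ℝ] ℝ) v).hasSum hs.hasSum
      have e2 := (ContinuousLinearMap.apply ℝ ℝ v).hasSum e1
      exact e2
    have hl : HasSum (fun i => levi (WSM_f s m i) w v) (levi (WW s m) w v) :=
      (hh v).add (hh (Complex.I • v))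
    exact hl.nonneg fun i => WSM_levi h2 s m i (heps i) (hne w hw i) v
  · intro w hw1 hw2
    have hw : w ∈ O := ⟨hw1, hw2⟩
    have hs := hL2 w hw
    refine ⟨hs.hasSum.tendsto_sum_nat, fun k => ?_⟩
    have hneg : ∀ i, 0 ≤ -WSM_f s m i w := by
      intro i
      have h6 : Real.log (nsq (w - s i)) ≤ 0 := by
        have h7 : 0 ≤ nsq (w - s i) := le_trans (by positivity) (hnorm _)
        exact Real.log_nonpos h7 (hle w hw i)
      have h8 := heps i
      have : WSM_f s m i w ≤ 0 := mul_nonpos_of_nonneg_of_nonpos (by positivity) h6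
      linarith
    have h6 := hs.neg.sum_le_tsum (Finset.range k) fun i _ => hneg i
    rw [tsum_neg, Finset.sum_neg_distrib] at h6
    have h7 : WW s m w = ∑' i, WSM_f s m i w := rfl
    rw [h7]
    have h8 : ∑ i ∈ Finset.range k, eps m i / 2 * Real.log (nsq (w - s i)) =
        ∑ i ∈ Finset.range k, WSM_f s m i w := rfl
    rw [h8]
    linarith

end Pool.Agent.SC
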