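import Pool.Agent.helper82.SC.SpecA

namespace Pool.Agent.helper82.SC

open Relation

theorem SY_conf (D : Dom) (z : Dart) : D.Conf (star z) = D.Conf z := by
  unfold Dom.Conf
  simp only [star_star, or_comm]

theorem SY_z2 (a b : ZMod 2) (h : b = a + 1) : (b = 1 ↔ ¬ a = 1) := by
  subst h
  revert a
  decide

theorem SY_zp (D : Dom) (z : Dart) (ψ : Dart → ZMod 2) (h : ψ ∈ D.Conf z) :
    zp ψ (star z) = zp ψ z := by
  have h1 : ψ (star z) = ψ z + 1 := by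
    have := h.2.1 z
    rwa [if_pos (Or.inl rfl)] at this
  have h2 := SY_z2 _ _ h1
  unfold zp
  rw [star_star]
  by_cases h3 : ψ z = 1
  · rw [if_pos h3, if_neg (fun h4 => (h2.1 h4) h3)]
  · rw [if_neg h3, if_pos (h2.2 h3)]

/-- the module CSY -/
theorem SY : SY_stmt := by
  intro D z
  refine ⟨SY_conf D z, fun ψ h => SY_zp D z ψ h, fun j => ?_⟩
  unfold Dom.P
  congr 2
  congr 1
  ext ψ
  simp only [Set.mem_ofPred_eq]
  rw [SY_conf]
  constructor
  · rintro ⟨h1, h2⟩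
    refine ⟨h1, ?_⟩
    unfold Dom.Jn at h2 ⊢
    rwa [SY_zp D z ψ h1] at h2
  · rintro ⟨h1, h2⟩
    refine ⟨h1, ?_⟩
    unfold Dom.Jn at h2 ⊢
    rwa [SY_zp D z ψ h1]

end Pool.Agent.helper82.SC
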